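import Mathlib
import Pool.Agent.Helper32.NO.Fin

/-!
# Conjecture C of Sambale for blocks with a normal defect group

The Frobenius-Schur indicator of the projective indecomposable character of a real
non-principal `2`-block `B` of an arbitrary finite group with exactly one irreducible Brauer
character and a normal defect group `D` is the number of involutions in `E ∖ D`, where `(D, E)` is
the defect pair; and the orbit-wise refinement of this identity. More generally this holds when
there is a normal subgroup `Q ≠ 1` of `G` inside `D` such that the image of `B` in `G/Q` is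
nilpotent.
-/

open scoped BigOperators
open Classical

namespace Pool.Agent.Helper44.Kept.NormalDefect

open Pool.Agent.Helper36.NB Pool.Agent.Helper44.S3 Pool.Agent.Helper32.ND Pool.Agent.Helper32.NO

theorem result (O : ValuationSubring ℂ) (h2 : (2 : O) ∈ IsLocalRing.maximalIdeal O)
    {G : Type} [Group G] [Fintype G]
    -- a real block `e` of `O[G]` with exactly one irreducible Brauer character
    (e : MonoidAlgebra O G) (he : IsBlock e) (her : inv' e = e)
    (hone : OneSimple (toK O G e))
    -- with defect pair `(D, E)`, `D ≠ E`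
    (x : G) (hx : IsDefectClass O e x) (D E : Subgroup G) (hDE : IsDefectPair x D E)
    (hne : D ≠ E)
    -- the defect group is normal, or the block is nilpotent modulo a normal subgroup `Q ≠ 1`
    -- of `G` inside `D`
    (hcase : D.Normal ∨ ∃ (Q : Subgroup G) (_ : Q.Normal), Q ≠ ⊥ ∧ Q ≤ D ∧
      NilpotentPairs (D.map (QuotientGroup.mk' Q)) (toK O (G ⧸ Q) (pr O Q e)))
    -- the projective indecomposable module `O[G] j` of the block
    (j : MonoidAlgebra O G) (hj : IsPrimitiveIdem j) (hje : j * e = j) :
    ((∑ g : G, pim O j (g * g)) / (Nat.card G : ℂ) =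
      (Nat.card {y : G // y ∈ E ∧ y ∉ D ∧ y * y = 1} : ℂ)) ∧
    -- the orbit-wise identity
    ∀ u : G, u * u = 1 → (∑ s : cent u, pim O j s) / (Nat.card (cent u) : ℂ) =
      (Nat.card {y : G // y ∈ E ∧ y ∉ D ∧ IsConj u y} : ℂ) := by
  obtain ⟨he0, hee, hec, -⟩ := id he
  have : IsAlgClosed (resK O) := resK_isAlgClosed O
  have hc0 : toK O G e ≠ 0 := fun h => he0 (idem_eq_zero O hee h)
  obtain ⟨S⟩ := simpleQuot_of_oneSimple (toK O G e) hc0 (by rw [← map_mul, hee])
    (fun y => by
      obtain ⟨y', rfl⟩ := toK_surjective O y
      rw [← map_mul, ← map_mul, hec]) hone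
  refine final_of_orb O h2 e hee hec S j hj hje D E ?_
  rcases hcase with h | ⟨Q, hQ, -, hQD, h⟩
  · exact Pool.Agent.Helper32.ND.orb_normal O h2 e he her S x hx D E hDE hne h
  · exact orb_quot h2 e he her S x hx D E hDE hne Q hQD h

end Pool.Agent.Helper44.Kept.NormalDefect
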