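import Mathlib
import Pool.Agent.Helper32.ST.FinalQ

/-!
# Conjecture C of Sambale for blocks which lie over a nilpotent block with solvable quotient

Let `B` be a real non-principal `2`-block with exactly one irreducible Brauer character and defect
pair `(D, E)` of a finite group `G`. Suppose that `B` covers a block `b` of a normal subgroup `H`
such that `b` has exactly one irreducible Brauer character, `b` is nilpotent, or has a normal
defect group, or is nilpotent modulo a normal `2`-subgroup `Q ≤ H` of `G`, and `T / H` is solvable,
where `T` is the stabiliser of `b` in `G`. Then the Frobenius-Schur indicator of the projective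
indecomposable character of `B` is the number of involutions in `E ∖ D`. For `H = 1` these are all
solvable groups, for `H = G` all nilpotent blocks and all blocks with a normal defect group.
-/

open scoped BigOperators
open Classical

namespace Pool.Agent.Helper44.Kept.SolvableOver

open Pool.Agent.Helper36.NB Pool.Agent.Helper44.S3 Pool.Agent.Helper32.NO
open Pool.Agent.Helper36.NC (IsDefGroup)

theorem result (O : ValuationSubring ℂ) (h2 : (2 : O) ∈ IsLocalRing.maximalIdeal O)
    {G : Type} [Group G] [Fintype G]
    -- a real block `e` of `O[G]` with exactly one irreducible Brauer character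
    (e : MonoidAlgebra O G) (he : IsBlock e) (her : inv' e = e)
    (hone : OneSimple (toK O G e))
    -- with defect pair `(D, E)`, `D ≠ E`
    (x : G) (hx : IsDefectClass O e x) (D E : Subgroup G) (hDE : IsDefectPair x D E)
    (hne : D ≠ E)
    -- which covers a block `b` of `O[H]` with exactly one irreducible Brauer character, `H ⊴ G`
    {H : Subgroup G} (hH : H.Normal) (b : MonoidAlgebra O H) (hb : IsBlock b)
    (hcov : e * incl O H b ≠ 0) (honeb : OneSimple (toK O H b))
    -- `b` is nilpotent or has a normal defect group,
    (hnil : (∀ P : Subgroup H, IsDefGroup O b P → P.Normal ∨ NilpotentPairs P (toK O H b)) ∨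
      -- or it is nilpotent modulo a `2`-subgroup `Q` of `H` which is normal in `G`
      ∃ (Q : Subgroup G) (_ : Q.Normal) (_ : (Q.subgroupOf H).Normal), IsPGroup 2 Q ∧ Q ≤ H ∧
        ∀ P : Subgroup (H ⧸ Q.subgroupOf H), IsDefGroup O (prR O (Q.subgroupOf H) b) P →
          NilpotentPairs P (toK O (H ⧸ Q.subgroupOf H) (prR O (Q.subgroupOf H) b)))
    -- the stabiliser `T` of `b` in `G` is solvable modulo `H`
    {T : Subgroup G}
    (hT : ∀ g, g ∈ T ↔ el O g * incl O H b * el O g⁻¹ = incl O H b)
    (hsol : Group.IsSolvable (T ⧸ H.subgroupOf T))
    -- the projective indecomposable module `O[G] j` of the block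
    (j : MonoidAlgebra O G) (hj : IsPrimitiveIdem j) (hje : j * e = j) :
    (∑ g : G, pim O j (g * g)) / (Nat.card G : ℂ) =
      (Nat.card {y : G // y ∈ E ∧ y ∉ D ∧ y * y = 1} : ℂ) :=
  Pool.Agent.Helper32.ST.st_pimQ O h2 hH b hb honeb hnil hT hsol he her hone hcov x hx D E hDE hne
    j hj hje

end Pool.Agent.Helper44.Kept.SolvableOver
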